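import Pool.Agent.R763.QuadMain

set_option autoImplicit false
open MeasureTheory

namespace Pool.Agent.Results.MP_bff4fe_gt.PerpendicularChords

open Pool.Agent.R763.Str

/-- Perpendicular chords `[a,c]`, `[b,d]` that quadrisect the perimeter `L` of a plane convex figure
satisfy `2 (|ac| + |bd|) ≥ L`, with equality only for rectangles. -/
theorem result (F : Set (EuclideanSpace ℝ (Fin 2))) (hF : IsCompact F) (hconv : Convex ℝ F)
    (hint : (interior F).Nonempty) (a b c d : EuclideanSpace ℝ (Fin 2))
    (A B C D : Set (EuclideanSpace ℝ (Fin 2))) (hq : Quadrisect F a b c d A B C D)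
    (hperp : inner ℝ (c - a) (d - b) = 0) :
    μH[1] (frontier F) ≠ ⊤ ∧
    (μH[1] (frontier F)).toReal ≤ 2 * (dist a c + dist b d) ∧
    ((μH[1] (frontier F)).toReal = 2 * (dist a c + dist b d) → IsRectangle F) := by
  have h1 := cauchy hF hconv hint
  have h2 := quadrisect_main hq hF hconv hint hperp
  rw [perim_toReal hF hconv hint, h1.1]
  exact ⟨ENNReal.ofReal_ne_top, h2⟩

end Pool.Agent.Results.MP_bff4fe_gt.PerpendicularChords
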